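import Pool.Agent.W533.V.Defs

/-!
# Project UP, part UP-NET: random sign matrices have small operator norm
-/

set_option autoImplicit false

open Finset

namespace Pool.Agent.W991.UP

open Pool.Agent.W533.V

/-! ### rounding -/

theorem rnd (m : ℕ) (hm : 0 < m) (y : EuclideanSpace ℝ (Fin m)) (hy : ‖y‖ ≤ 1) :
    ∃ u : Fin m → ℤ, ∑ i, ((u i : ℝ)) ^ 2 ≤ 25 / 4 * m ∧
      ∃ y' : EuclideanSpace ℝ (Fin m), (∀ i, y' i = (u i : ℝ) / (2 * √(m : ℝ))) ∧
        ‖y - y'‖ ≤ 1 / 4 ∧ ‖y'‖ ≤ 5 / 4 := by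
  have hm0 : (0 : ℝ) < m := by exact_mod_cast hm
  have hs : 0 < √(m : ℝ) := Real.sqrt_pos.mpr hm0
  have hss : √(m : ℝ) ^ 2 = m := Real.sq_sqrt hm0.le
  set s := √(m : ℝ) with hsdef
  let u : Fin m → ℤ := fun i => round (2 * s * y i)
  let y' : EuclideanSpace ℝ (Fin m) := WithLp.toLp 2 (fun i => (u i : ℝ) / (2 * s))
  have hy'i : ∀ i, y' i = (u i : ℝ) / (2 * s) := fun i => rfl
  have h1 : ‖y - y'‖ ≤ 1 / 4 := by
    have h2 : ‖y - y'‖ ^ 2 ≤ (1 / 4) ^ 2 := by
      rw [EuclideanSpace.norm_sq_eq]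
      have h3 : ∀ i, ‖(y - y') i‖ ^ 2 ≤ 1 / (16 * m) := by
        intro i
        have h4 : (y - y') i = (2 * s * y i - (u i : ℝ)) / (2 * s) := by
          rw [PiLp.sub_apply, hy'i]
          field_simp
        have h5 : |2 * s * y i - (u i : ℝ)| ≤ 1 / 2 := abs_sub_round (2 * s * y i)
        rw [h4, Real.norm_eq_abs, sq_abs, div_pow, mul_pow, hss]
        have h6 : (2 * s * y i - (u i : ℝ)) ^ 2 ≤ (1 / 2) ^ 2 := by
          rw [← sq_abs]
          exact pow_le_pow_left₀ (abs_nonneg _) h5 2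
        rw [div_le_div_iff₀ (by positivity) (by positivity)]
        nlinarith
      calc ∑ i, ‖(y - y') i‖ ^ 2 ≤ ∑ _i : Fin m, 1 / (16 * (m : ℝ)) :=
            Finset.sum_le_sum fun i _ => h3 i
        _ = (1 / 4) ^ 2 := by
            rw [Finset.sum_const, Finset.card_univ, Fintype.card_fin, nsmul_eq_mul]
            field_simp
            norm_num
    exact le_of_sq_le_sq h2 (by norm_num)
  have h2 : ‖y'‖ ≤ 5 / 4 := by
    have h3 : y' = y - (y - y') := by abel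
    rw [h3]
    refine (norm_sub_le _ _).trans ?_
    linarith
  refine ⟨u, ?_, y', hy'i, h1, h2⟩
  have h3 : ‖y'‖ ^ 2 ≤ (5 / 4) ^ 2 := pow_le_pow_left₀ (norm_nonneg _) h2 2
  rw [EuclideanSpace.norm_sq_eq] at h3
  have h4 : ∀ i, ‖y' i‖ ^ 2 = (u i : ℝ) ^ 2 / (4 * m) := by
    intro i
    rw [hy'i, Real.norm_eq_abs, sq_abs, div_pow, mul_pow, hss]
    norm_num
  simp only [h4] at h3
  rw [← Finset.sum_div, div_le_iff₀ (by positivity)] at h3
  linarith

/-! ### the deterministic step -/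

/-- the linear map of a matrix -/
noncomputable def TT {n N : ℕ} (a : Fin N → Fin n → ℝ) :
    EuclideanSpace ℝ (Fin n) →ₗ[ℝ] EuclideanSpace ℝ (Fin N) where
  toFun b := WithLp.toLp 2 (fun i => ∑ j, a i j * b j)
  map_add' b c := by
    ext i
    simp only [PiLp.add_apply, mul_add, Finset.sum_add_distrib]
  map_smul' r b := by
    ext i
    simp only [PiLp.smul_apply, smul_eq_mul, RingHom.id_apply, Finset.mul_sum]
    refine Finset.sum_congr rfl fun j _ => ?_
    ring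

theorem TT_apply {n N : ℕ} (a : Fin N → Fin n → ℝ) (b : EuclideanSpace ℝ (Fin n)) (i : Fin N) :
    TT a b i = ∑ j, a i j * b j := rfl

theorem TT_inner {n N : ℕ} (a : Fin N → Fin n → ℝ) (b : EuclideanSpace ℝ (Fin n))
    (y : EuclideanSpace ℝ (Fin N)) :
    inner ℝ y (TT a b) = ∑ i, ∑ j, y i * b j * a i j := by
  rw [PiLp.inner_apply]
  refine Finset.sum_congr rfl fun i _ => ?_
  rw [TT_apply]
  simp only [RCLike.inner_apply, conj_trivial, Finset.sum_mul]
  refine Finset.sum_congr rfl fun j _ => ?_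
  ring

theorem det_step (n N : ℕ) (hn : 0 < n) (hN : 0 < N) (a : Fin N → Fin n → ℝ)
    (h : ∀ (u : Fin N → ℤ) (z : Fin n → ℤ), ∑ i, ((u i : ℝ)) ^ 2 ≤ 25 / 4 * N →
      ∑ j, ((z j : ℝ)) ^ 2 ≤ 25 / 4 * n →
      ∑ i, ∑ j, (u i : ℝ) * (z j : ℝ) * a i j ≤ 40 * N * √(n : ℝ)) (b : Fin n → ℝ) :
    ∑ i, (∑ j, a i j * b j) ^ 2 ≤ 1000 * N * ∑ j, b j ^ 2 := by
  have hN0 : (0 : ℝ) < N := by exact_mod_cast hN
  have hn0 : (0 : ℝ) < n := by exact_mod_cast hn
  have hsN : 0 < √(N : ℝ) := Real.sqrt_pos.mpr hN0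
  have hsn : 0 < √(n : ℝ) := Real.sqrt_pos.mpr hn0
  have hssN : √(N : ℝ) ^ 2 = N := Real.sq_sqrt hN0.le
  set T := LinearMap.toContinuousLinearMap (TT a) with hT
  have hTa : ∀ x, T x = TT a x := fun x => rfl
  have hbd : ∀ (y : EuclideanSpace ℝ (Fin N)) (x : EuclideanSpace ℝ (Fin n)),
      inner ℝ y (TT a x) ≤ ‖y‖ * (‖T‖ * ‖x‖) := by
    intro y x
    refine (real_inner_le_norm _ _).trans ?_
    exact mul_le_mul_of_nonneg_left (T.le_opNorm x) (norm_nonneg _)
  have hunit : ∀ (y : EuclideanSpace ℝ (Fin N)) (x : EuclideanSpace ℝ (Fin n)), ‖y‖ ≤ 1 →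
      ‖x‖ ≤ 1 → inner ℝ y (TT a x) ≤ 9 / 16 * ‖T‖ + 10 * √(N : ℝ) := by
    intro y x hy hx
    obtain ⟨u, hu, y', hy', hyy', hny'⟩ := rnd N hN y hy
    obtain ⟨z, hz, x', hx', hxx', hnx'⟩ := rnd n hn x hx
    have h1 : inner ℝ y (TT a x) = inner ℝ (y - y') (TT a x) + inner ℝ y' (TT a (x - x')) +
        inner ℝ y' (TT a x') := by
      rw [map_sub, inner_sub_left, inner_sub_right]
      ring
    have h2 : inner ℝ (y - y') (TT a x) ≤ 1 / 4 * ‖T‖ := by
      refine (hbd _ _).trans ?_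
      calc ‖y - y'‖ * (‖T‖ * ‖x‖) ≤ 1 / 4 * (‖T‖ * 1) := by gcongr
        _ = 1 / 4 * ‖T‖ := by ring
    have h3 : inner ℝ y' (TT a (x - x')) ≤ 5 / 16 * ‖T‖ := by
      refine (hbd _ _).trans ?_
      calc ‖y'‖ * (‖T‖ * ‖x - x'‖) ≤ 5 / 4 * (‖T‖ * (1 / 4)) := by gcongr
        _ = 5 / 16 * ‖T‖ := by ring
    have h4 : inner ℝ y' (TT a x') ≤ 10 * √(N : ℝ) := by
      rw [TT_inner]
      have h5 : ∑ i, ∑ j, y' i * x' j * a i j =
          (∑ i, ∑ j, (u i : ℝ) * (z j : ℝ) * a i j) / (4 * (√(N : ℝ) * √(n : ℝ))) := by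
        rw [Finset.sum_div]
        refine Finset.sum_congr rfl fun i _ => ?_
        rw [Finset.sum_div]
        refine Finset.sum_congr rfl fun j _ => ?_
        rw [hy', hx']
        field_simp
        ring
      rw [h5, div_le_iff₀ (by positivity)]
      refine (h u z hu hz).trans (le_of_eq ?_)
      calc 40 * (N : ℝ) * √(n : ℝ) = 40 * √(N : ℝ) ^ 2 * √(n : ℝ) := by rw [hssN]
        _ = _ := by ring
    rw [h1]
    linarith
  have hK : ‖T‖ ≤ 9 / 16 * ‖T‖ + 10 * √(N : ℝ) := by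
    apply ContinuousLinearMap.opNorm_le_of_unit_norm
    · positivity
    · intro x hx
      rw [hTa]
      rcases eq_or_ne (TT a x) 0 with h0 | h0
      · rw [h0, norm_zero]
        positivity
      · have hpos : 0 < ‖TT a x‖ := norm_pos_iff.mpr h0
        have h1 := hunit (‖TT a x‖⁻¹ • TT a x) x (by
          rw [norm_smul, norm_inv, norm_norm, inv_mul_cancel₀ hpos.ne']) hx.le
        rw [real_inner_smul_left, real_inner_self_eq_norm_sq, pow_two, ← mul_assoc,
          inv_mul_cancel₀ hpos.ne', one_mul] at h1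
        exact h1
  have hK2 : ‖T‖ ≤ 160 / 7 * √(N : ℝ) := by linarith
  have hK3 : ‖T‖ ^ 2 ≤ 1000 * N := by
    have h1 : ‖T‖ ^ 2 ≤ (160 / 7 * √(N : ℝ)) ^ 2 := pow_le_pow_left₀ (norm_nonneg _) hK2 2
    rw [mul_pow, hssN] at h1
    nlinarith
  set x : EuclideanSpace ℝ (Fin n) := WithLp.toLp 2 b with hx
  have h1 : ‖TT a x‖ ^ 2 ≤ 1000 * N * ‖x‖ ^ 2 := by
    have h2 : ‖T x‖ ≤ ‖T‖ * ‖x‖ := T.le_opNorm x
    rw [hTa] at h2
    calc ‖TT a x‖ ^ 2 ≤ (‖T‖ * ‖x‖) ^ 2 := pow_le_pow_left₀ (norm_nonneg _) h2 2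
      _ = ‖T‖ ^ 2 * ‖x‖ ^ 2 := by ring
      _ ≤ 1000 * N * ‖x‖ ^ 2 := by gcongr
  rw [EuclideanSpace.norm_sq_eq, EuclideanSpace.norm_sq_eq] at h1
  have h2 : ∑ i, ‖TT a x i‖ ^ 2 = ∑ i, (∑ j, a i j * b j) ^ 2 := by
    refine Finset.sum_congr rfl fun i _ => ?_
    rw [TT_apply, Real.norm_eq_abs, sq_abs]
  have h3 : ∑ j, ‖x j‖ ^ 2 = ∑ j, b j ^ 2 := by
    refine Finset.sum_congr rfl fun j _ => ?_
    rw [Real.norm_eq_abs, sq_abs]
  rw [h2, h3] at h1
  exact h1

/-! ### the exponential moment -/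

theorem expmom {ι : Type} [Fintype ι] [DecidableEq ι] (c : ι → ℝ) :
    ∑ W : ι → Bool, Real.exp (∑ x, c x * sg (W x)) ≤
      2 ^ Fintype.card ι * Real.exp ((∑ x, c x ^ 2) / 2) := by
  have h1 : ∑ W : ι → Bool, Real.exp (∑ x, c x * sg (W x)) =
      ∏ x, ∑ b : Bool, Real.exp (c x * sg b) := by
    rw [Finset.prod_univ_sum, Fintype.piFinset_univ]
    refine Finset.sum_congr rfl fun W _ => ?_
    rw [Real.exp_sum]
  rw [h1]
  have h2 : ∀ x, ∑ b : Bool, Real.exp (c x * sg b) ≤ 2 * Real.exp (c x ^ 2 / 2) := by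
    intro x
    have h3 := Real.cosh_le_exp_half_sq (c x)
    rw [Real.cosh_eq] at h3
    rw [Fintype.sum_bool]
    simp only [sg, if_true, if_false, Bool.false_eq_true, mul_one, mul_neg]
    linarith
  calc ∏ x, ∑ b : Bool, Real.exp (c x * sg b) ≤ ∏ x, (2 * Real.exp (c x ^ 2 / 2)) :=
        Finset.prod_le_prod (fun x _ => by positivity) fun x _ => h2 x
    _ = 2 ^ Fintype.card ι * Real.exp ((∑ x, c x ^ 2) / 2) := by
        rw [Finset.prod_mul_distrib, Finset.prod_const, Finset.card_univ, ← Real.exp_sum,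
          Finset.sum_div]

theorem tail {ι : Type} [Fintype ι] [DecidableEq ι] (c : ι → ℝ) (t lam s : ℝ) (hl : 0 ≤ lam)
    (hs : ∑ x, c x ^ 2 ≤ s) :
    (((Finset.univ : Finset (ι → Bool)).filter fun W => t < ∑ x, c x * sg (W x)).card : ℝ) ≤
      2 ^ Fintype.card ι * Real.exp (lam ^ 2 * s / 2 - lam * t) := by
  have h1 := expmom (fun x => lam * c x)
  have h2 : ∀ W : ι → Bool, (if t < ∑ x, c x * sg (W x) then (1 : ℝ) else 0) ≤
      Real.exp (- (lam * t)) * Real.exp (∑ x, lam * c x * sg (W x)) := by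
    intro W
    rw [← Real.exp_add]
    split_ifs with h
    · apply Real.one_le_exp
      have h3 : ∑ x, lam * c x * sg (W x) = lam * ∑ x, c x * sg (W x) := by
        rw [Finset.mul_sum]
        refine Finset.sum_congr rfl fun x _ => ?_
        ring
      rw [h3]
      nlinarith
    · positivity
  have h3 : (((Finset.univ : Finset (ι → Bool)).filter fun W =>
      t < ∑ x, c x * sg (W x)).card : ℝ) =
      ∑ W : ι → Bool, if t < ∑ x, c x * sg (W x) then (1 : ℝ) else 0 := by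
    rw [Finset.card_filter]
    push_cast
    rfl
  rw [h3]
  calc ∑ W : ι → Bool, (if t < ∑ x, c x * sg (W x) then (1 : ℝ) else 0)
      ≤ ∑ W : ι → Bool, Real.exp (- (lam * t)) * Real.exp (∑ x, lam * c x * sg (W x)) :=
        Finset.sum_le_sum fun W _ => h2 W
    _ = Real.exp (- (lam * t)) * ∑ W : ι → Bool, Real.exp (∑ x, lam * c x * sg (W x)) := by
        rw [Finset.mul_sum]
    _ ≤ Real.exp (- (lam * t)) * (2 ^ Fintype.card ι * Real.exp (lam ^ 2 * s / 2)) := by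
        refine mul_le_mul_of_nonneg_left (h1.trans ?_) (Real.exp_pos _).le
        refine mul_le_mul_of_nonneg_left (Real.exp_le_exp.mpr ?_) (by positivity)
        have h4 : ∑ x, (lam * c x) ^ 2 = lam ^ 2 * ∑ x, c x ^ 2 := by
          rw [Finset.mul_sum]
          refine Finset.sum_congr rfl fun x _ => ?_
          ring
        rw [h4]
        have : lam ^ 2 * ∑ x, c x ^ 2 ≤ lam ^ 2 * s := mul_le_mul_of_nonneg_left hs (sq_nonneg _)
        linarith
    _ = 2 ^ Fintype.card ι * Real.exp (lam ^ 2 * s / 2 - lam * t) := by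
        rw [sub_eq_add_neg, Real.exp_add]
        ring

/-! ### counting integer vectors -/

theorem theta (B : ℕ) : ∑ k ∈ Finset.Icc (-(B : ℤ)) B, Real.exp (-((k : ℝ)) ^ 2) ≤
    3 - 2 * (1 / 2) ^ B := by
  induction B with
  | zero =>
    simp
    norm_num
  | succ B ih =>
    have h1 : Finset.Icc (-((B + 1 : ℕ) : ℤ)) ((B + 1 : ℕ) : ℤ) =
        insert ((B : ℤ) + 1) (insert (-((B : ℤ) + 1)) (Finset.Icc (-(B : ℤ)) B)) := by
      ext k
      simp only [Finset.mem_Icc, Finset.mem_insert]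
      push_cast
      omega
    have h2 : Real.exp (-((B : ℝ) + 1) ^ 2) ≤ (1 / 2) ^ (B + 1) := by
      have h3 : Real.exp (-((B : ℝ) + 1) ^ 2) ≤ Real.exp (((B + 1 : ℕ) : ℝ) * (-1)) := by
        apply Real.exp_le_exp.mpr
        push_cast
        have : (0 : ℝ) ≤ B := Nat.cast_nonneg B
        nlinarith
      refine h3.trans ?_
      rw [Real.exp_nat_mul]
      refine pow_le_pow_left₀ (Real.exp_pos _).le ?_ _
      rw [Real.exp_neg, one_div]
      apply inv_anti₀ (by norm_num)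
      have := Real.add_one_le_exp (1 : ℝ)
      linarith
    rw [h1, Finset.sum_insert, Finset.sum_insert]
    · have h4 : Real.exp (-((((B : ℤ) + 1 : ℤ) : ℝ)) ^ 2) ≤ (1 / 2) ^ (B + 1) := by
        push_cast
        exact h2
      have h5 : Real.exp (-(((-((B : ℤ) + 1) : ℤ) : ℝ)) ^ 2) ≤ (1 / 2) ^ (B + 1) := by
        have : ((-((B : ℤ) + 1) : ℤ) : ℝ) ^ 2 = ((B : ℝ) + 1) ^ 2 := by
          push_cast
          ring
        rw [this]
        exact h2
      have h6 : (2 : ℝ) * (1 / 2) ^ B = 4 * (1 / 2) ^ (B + 1) := by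
        rw [pow_succ]
        ring
      linarith
    · simp only [Finset.mem_Icc]
      omega
    · simp only [Finset.mem_insert, Finset.mem_Icc]
      omega

/-- short integer vectors -/
noncomputable def UU (m : ℕ) : Finset (Fin m → ℤ) :=
  (Fintype.piFinset (fun _ : Fin m => Finset.Icc (-((3 * m : ℕ) : ℤ)) ((3 * m : ℕ) : ℤ))).filter
    (fun u => ∑ i, ((u i : ℝ)) ^ 2 ≤ 25 / 4 * m)

theorem mem_UU (m : ℕ) (u : Fin m → ℤ) (hu : ∑ i, ((u i : ℝ)) ^ 2 ≤ 25 / 4 * m) : u ∈ UU m := by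
  unfold UU
  rw [Finset.mem_filter, Fintype.mem_piFinset]
  refine ⟨fun i => ?_, hu⟩
  have hm : (1 : ℝ) ≤ m := by
    have : 0 < m := Fin.pos i
    exact_mod_cast this
  have h1 : ((u i : ℝ)) ^ 2 ≤ 25 / 4 * m := by
    refine le_trans ?_ hu
    exact Finset.single_le_sum (f := fun i => ((u i : ℝ)) ^ 2) (fun j _ => sq_nonneg _)
      (Finset.mem_univ i)
  have h2 : ((u i : ℝ)) ^ 2 ≤ (3 * m) ^ 2 := by nlinarith
  have h3 := abs_le_of_sq_le_sq' h2 (by positivity)
  rw [Finset.mem_Icc]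
  constructor
  · have := h3.1
    have h4 : ((-((3 * m : ℕ) : ℤ) : ℤ) : ℝ) ≤ ((u i : ℤ) : ℝ) := by
      push_cast
      exact this
    exact_mod_cast h4
  · have := h3.2
    have h4 : ((u i : ℤ) : ℝ) ≤ ((((3 * m : ℕ) : ℤ) : ℤ) : ℝ) := by
      push_cast
      exact this
    exact_mod_cast h4

theorem card_UU (m : ℕ) : ((UU m).card : ℝ) ≤ Real.exp (33 / 4 * m) := by
  have h1 : ((UU m).card : ℝ) ≤ ∑ u ∈ Fintype.piFinset (fun _ : Fin m =>
      Finset.Icc (-((3 * m : ℕ) : ℤ)) ((3 * m : ℕ) : ℤ)),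
        Real.exp (25 / 4 * m) * ∏ i, Real.exp (-((u i : ℝ)) ^ 2) := by
    rw [Finset.cast_card]
    unfold UU
    rw [Finset.sum_filter]
    refine Finset.sum_le_sum fun u _ => ?_
    split_ifs with h
    · rw [← Real.exp_sum, ← Real.exp_add]
      apply Real.one_le_exp
      rw [Finset.sum_neg_distrib]
      linarith
    · positivity
  refine h1.trans ?_
  have h0 := Finset.prod_univ_sum (fun _ : Fin m => Finset.Icc (-((3 * m : ℕ) : ℤ)) ((3 * m : ℕ) : ℤ))
    (fun _ k => Real.exp (-((k : ℝ)) ^ 2))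
  rw [← Finset.mul_sum, ← h0]
  have h2 : ∏ _i : Fin m, ∑ j ∈ Finset.Icc (-((3 * m : ℕ) : ℤ)) ((3 * m : ℕ) : ℤ),
      Real.exp (-((j : ℝ)) ^ 2) ≤ Real.exp (2 * m) := by
    have h3 : ∏ _i : Fin m, ∑ j ∈ Finset.Icc (-((3 * m : ℕ) : ℤ)) ((3 * m : ℕ) : ℤ),
        Real.exp (-((j : ℝ)) ^ 2) ≤ ∏ _i : Fin m, Real.exp 2 := by
      apply Finset.prod_le_prod
      · intro i _
        positivity
      · intro i _
        have h4 := theta (3 * m)
        have h5 := Real.add_one_le_exp (2 : ℝ)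
        have h6 : (0 : ℝ) ≤ 2 * (1 / 2) ^ (3 * m) := by positivity
        linarith
    refine h3.trans (le_of_eq ?_)
    rw [Finset.prod_const, Finset.card_univ, Fintype.card_fin, ← Real.exp_nat_mul, mul_comm]
  calc Real.exp (25 / 4 * m) * ∏ _i : Fin m,
        ∑ j ∈ Finset.Icc (-((3 * m : ℕ) : ℤ)) ((3 * m : ℕ) : ℤ), Real.exp (-((j : ℝ)) ^ 2)
      ≤ Real.exp (25 / 4 * m) * Real.exp (2 * m) :=
        mul_le_mul_of_nonneg_left h2 (Real.exp_pos _).le
    _ = Real.exp (33 / 4 * m) := by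
        rw [← Real.exp_add]
        congr 1
        ring

theorem net : S_Net := by
  classical
  intro n N hn hnN
  have hN : 0 < N := lt_of_lt_of_le hn hnN
  have hN0 : (0 : ℝ) < N := by exact_mod_cast hN
  have hn0 : (0 : ℝ) < n := by exact_mod_cast hn
  have hnN' : (n : ℝ) ≤ N := by exact_mod_cast hnN
  have hsn : 0 < √(n : ℝ) := Real.sqrt_pos.mpr hn0
  have hssn : √(n : ℝ) ^ 2 = n := Real.sq_sqrt hn0.le
  set t : ℝ := 40 * N * √(n : ℝ) with ht
  set s : ℝ := 625 / 16 * (N * n) with hs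
  set lam : ℝ := t / s with hlam
  have hs0 : 0 < s := by positivity
  have ht0 : 0 < t := by positivity
  have hl0 : 0 ≤ lam := by positivity
  have hexp : lam ^ 2 * s / 2 - lam * t = - (512 / 25) * N := by
    have h1 : t ^ 2 = 1600 * N ^ 2 * n := by
      rw [ht, mul_pow, mul_pow, hssn]
      norm_num
    have h2 : lam ^ 2 * s / 2 - lam * t = - (t ^ 2 / (2 * s)) := by
      rw [hlam]
      field_simp
      ring
    rw [h2, h1, hs]
    field_simp
    norm_num
  -- the bad set is covered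
  have hcov : ((Finset.univ : Finset (Fin N × Fin n → Bool)).filter fun W =>
      ¬ ∀ b : Fin n → ℝ, ∑ i, (∑ j, sg (W (i, j)) * b j) ^ 2 ≤
        1000 * N * ∑ j, b j ^ 2) ⊆
      (UU N ×ˢ UU n).biUnion (fun q => (Finset.univ : Finset (Fin N × Fin n → Bool)).filter
        fun W => t < ∑ x : Fin N × Fin n, ((q.1 x.1 : ℝ) * (q.2 x.2 : ℝ)) * sg (W x)) := by
    intro W hW
    rw [Finset.mem_filter] at hW
    by_contra hcon
    apply hW.2
    intro b
    refine det_step n N hn hN (fun i j => sg (W (i, j))) ?_ b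
    intro u z hu hz
    by_contra hlt
    push Not at hlt
    apply hcon
    rw [Finset.mem_biUnion]
    refine ⟨(u, z), ?_, ?_⟩
    · rw [Finset.mem_product]
      exact ⟨mem_UU N u hu, mem_UU n z hz⟩
    · rw [Finset.mem_filter]
      refine ⟨Finset.mem_univ _, ?_⟩
      rw [Fintype.sum_prod_type]
      exact hlt
  have hcard : (((Finset.univ : Finset (Fin N × Fin n → Bool)).filter fun W =>
      ¬ ∀ b : Fin n → ℝ, ∑ i, (∑ j, sg (W (i, j)) * b j) ^ 2 ≤
        1000 * N * ∑ j, b j ^ 2).card : ℝ) ≤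
      ∑ q ∈ UU N ×ˢ UU n, (2 : ℝ) ^ (N * n) * Real.exp (- (512 / 25) * N) := by
    calc (((Finset.univ : Finset (Fin N × Fin n → Bool)).filter fun W =>
      ¬ ∀ b : Fin n → ℝ, ∑ i, (∑ j, sg (W (i, j)) * b j) ^ 2 ≤
        1000 * N * ∑ j, b j ^ 2).card : ℝ) ≤ (((UU N ×ˢ UU n).biUnion (fun q =>
        (Finset.univ : Finset (Fin N × Fin n → Bool)).filter
        fun W => t < ∑ x : Fin N × Fin n, ((q.1 x.1 : ℝ) * (q.2 x.2 : ℝ)) * sg (W x))).card : ℝ) := by
          exact_mod_cast Finset.card_le_card hcov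
      _ ≤ ∑ q ∈ UU N ×ˢ UU n, (((Finset.univ : Finset (Fin N × Fin n → Bool)).filter
        fun W => t < ∑ x : Fin N × Fin n, ((q.1 x.1 : ℝ) * (q.2 x.2 : ℝ)) * sg (W x)).card : ℝ) := by
          exact_mod_cast Finset.card_biUnion_le
      _ ≤ _ := by
          refine Finset.sum_le_sum fun q hq => ?_
          rw [Finset.mem_product] at hq
          have hu : ∑ i, ((q.1 i : ℝ)) ^ 2 ≤ 25 / 4 * N := by
            have := hq.1
            unfold UU at this
            exact (Finset.mem_filter.mp this).2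
          have hz : ∑ j, ((q.2 j : ℝ)) ^ 2 ≤ 25 / 4 * n := by
            have := hq.2
            unfold UU at this
            exact (Finset.mem_filter.mp this).2
          have hsum : ∑ x : Fin N × Fin n, ((q.1 x.1 : ℝ) * (q.2 x.2 : ℝ)) ^ 2 ≤ s := by
            have h1 : ∑ x : Fin N × Fin n, ((q.1 x.1 : ℝ) * (q.2 x.2 : ℝ)) ^ 2 =
                (∑ i, ((q.1 i : ℝ)) ^ 2) * ∑ j, ((q.2 j : ℝ)) ^ 2 := by
              rw [Fintype.sum_prod_type, Finset.sum_mul]
              refine Finset.sum_congr rfl fun i _ => ?_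
              rw [Finset.mul_sum]
              refine Finset.sum_congr rfl fun j _ => ?_
              ring
            rw [h1, hs]
            calc (∑ i, ((q.1 i : ℝ)) ^ 2) * ∑ j, ((q.2 j : ℝ)) ^ 2 ≤
                  (25 / 4 * N) * (25 / 4 * n) := by
                  apply mul_le_mul hu hz (Finset.sum_nonneg fun j _ => sq_nonneg _) (by positivity)
              _ = _ := by ring
          have h1 := tail (fun x : Fin N × Fin n => (q.1 x.1 : ℝ) * (q.2 x.2 : ℝ)) t lam s hl0 hsum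
          rw [hexp, Fintype.card_prod, Fintype.card_fin, Fintype.card_fin] at h1
          exact h1
  refine hcard.trans ?_
  rw [Finset.sum_const, Finset.card_product, nsmul_eq_mul]
  push_cast
  have h1 := card_UU N
  have h2 : ((UU n).card : ℝ) ≤ Real.exp (33 / 4 * N) := by
    refine (card_UU n).trans (Real.exp_le_exp.mpr ?_)
    linarith
  calc ((UU N).card : ℝ) * ((UU n).card : ℝ) * ((2 : ℝ) ^ (N * n) * Real.exp (- (512 / 25) * N))
      ≤ Real.exp (33 / 4 * N) * Real.exp (33 / 4 * N) *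
          ((2 : ℝ) ^ (N * n) * Real.exp (- (512 / 25) * N)) := by
        gcongr
    _ = (2 : ℝ) ^ (N * n) * (Real.exp (33 / 4 * N) * Real.exp (33 / 4 * N) *
          Real.exp (- (512 / 25) * N)) := by ring
    _ ≤ (2 : ℝ) ^ (N * n) * Real.exp (-(N : ℝ)) := by
        refine mul_le_mul_of_nonneg_left ?_ (by positivity)
        rw [← Real.exp_add, ← Real.exp_add]
        apply Real.exp_le_exp.mpr
        linarith

end Pool.Agent.W991.UP
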